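import Mathlib
import Pool.Agent.X152.Sorted

/-!
# The spectral gap of the generalised pancake graph with six colours and two letters
-/

namespace Pool.Agent.Results.MP_ad1e8a_co.SixColours

open Matrix Pool.Agent.X152.Sorted

/-- Coloured permutations `(χ, ψ)`: position `t` carries the letter `ψ t` with the colour `χ t`. -/
abbrev V (m n : ℕ) : Type := (Fin n → ZMod m) × Equiv.Perm (Fin n)

theorem rev_involutive {n : ℕ} (k : Fin n) :
    Function.Involutive (fun t : Fin n => if t ≤ k then k - t else t) := by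
  intro t
  by_cases h : t ≤ k
  · have h2 : k - t ≤ k := by
      rw [Fin.le_def, Fin.sub_val_of_le h]
      omega
    simp only [h, if_true, h2]
    ext
    rw [Fin.sub_val_of_le h2, Fin.sub_val_of_le h]
    have := Fin.le_def.1 h
    omega
  · simp [h]

/-- The action of the reversal of the first `k + 1` positions on positions `0, ..., n - 1`: the
position `t ≤ k` is exchanged with `k - t`, the other positions are fixed. -/
def rev {n : ℕ} (k : Fin n) : Equiv.Perm (Fin n) :=
  Function.Involutive.toPerm (fun t => if t ≤ k then k - t else t) (rev_involutive k)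

/-- The prefix reversal of length `k + 1` that adds `e` to the colours of the reversed positions. -/
def flip {m n : ℕ} (k : Fin n) (e : ZMod m) (u : V m n) : V m n :=
  (fun t => if t ≤ k then u.1 (rev k t) + e else u.1 t, (rev k).trans u.2)

/-- The generalised pancake graph. -/
def pancake (m n : ℕ) : SimpleGraph (V m n) :=
  SimpleGraph.fromRel fun u v => ∃ k : Fin n, v = flip k 1 u ∨ v = flip k (-1) u

/-- The index of the part containing a coloured permutation: the colour and the position of the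
letter `0` (the first letter). -/
def part {m n : ℕ} [NeZero n] (u : V m n) : ZMod m × Fin n :=
  (u.1 (u.2.symm 0), u.2.symm 0)

open scoped Classical in
/-- `Q` is the quotient matrix of the partition of the vertices of the pancake graph. -/
def IsQuotientMatrix (m n : ℕ) [NeZero m] [NeZero n]
    (Q : Matrix (ZMod m × Fin n) (ZMod m × Fin n) ℝ) : Prop :=
  ∀ (u : V m n) (b : ZMod m × Fin n),
    Q (part u) b = (Finset.univ.filter (fun v => (pancake m n).Adj u v ∧ part v = b)).card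

open scoped Classical in
/-- The real adjacency matrix of the pancake graph. -/
noncomputable def adj (m n : ℕ) : Matrix (V m n) (V m n) ℝ := (pancake m n).adjMatrix ℝ

open scoped Classical in
theorem adj_isHermitian (m n : ℕ) : (adj m n).IsHermitian := by
  rw [Matrix.IsHermitian, conjTranspose_eq_transpose_of_trivial]
  exact SimpleGraph.isSymm_adjMatrix _

/-- The difference of the two largest eigenvalues. -/
noncomputable def gap {ι : Type*} [Fintype ι] [DecidableEq ι] {A : Matrix ι ι ℝ}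
    (hA : A.IsHermitian) : ℝ := lam hA 0 - lam hA 1

/-- The neighbours in the case of six colours and two letters. -/
def nb (u : V 6 2) : Finset (V 6 2) := {flip 0 1 u, flip 0 (-1) u, flip 1 1 u, flip 1 (-1) u}

theorem rev_apply {n : ℕ} (k t : Fin n) : rev k t = if t ≤ k then k - t else t := rfl

theorem rev_le {n : ℕ} {k t : Fin n} (h : t ≤ k) : rev k t ≤ k := by
  rw [rev_apply, if_pos h, Fin.le_def, Fin.sub_val_of_le h]
  omega

theorem rev_rev {n : ℕ} (k t : Fin n) : rev k (rev k t) = t := rev_involutive k t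

theorem flip_flip {m n : ℕ} (k : Fin n) (e : ZMod m) (u : V m n) :
    flip k (-e) (flip k e u) = u := by
  unfold flip
  refine Prod.ext (funext fun t => ?_) (Equiv.ext fun t => ?_)
  · by_cases h : t ≤ k
    · simp [h, rev_le h, rev_rev]
    · simp [h]
  · simp [rev_rev]

theorem notMem_nb : ∀ u : V 6 2, u ∉ nb u := by
  decide +kernel

theorem card_nb : ∀ u : V 6 2, (nb u).card = 4 := by
  decide +kernel

theorem adj_iff (u v : V 6 2) : (pancake 6 2).Adj u v ↔ v ∈ nb u := by
  rw [pancake, SimpleGraph.fromRel_adj]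
  constructor
  · rintro ⟨-, ⟨k, h | h⟩ | ⟨k, h | h⟩⟩
    · subst h
      fin_cases k <;> simp [nb]
    · subst h
      fin_cases k <;> simp [nb]
    · have : v = flip k (-1) u := by rw [h, flip_flip]
      subst this
      fin_cases k <;> simp [nb]
    · have : v = flip k 1 u := by
        have := flip_flip k (-1) v
        rw [neg_neg, ← h] at this
        exact this.symm
      subst this
      fin_cases k <;> simp [nb]
  · intro h
    refine ⟨fun h2 => notMem_nb u (h2 ▸ h), Or.inl ?_⟩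
    simp only [nb, Finset.mem_insert, Finset.mem_singleton] at h
    rcases h with h | h | h | h
    · exact ⟨0, Or.inl h⟩
    · exact ⟨0, Or.inr h⟩
    · exact ⟨1, Or.inl h⟩
    · exact ⟨1, Or.inr h⟩

/-- The quotient matrix in the case of six colours and two letters, with integer entries. -/
def Qz (a b : ZMod 6 × Fin 2) : ℕ :=
  if a.2 = 0 then (if b.1 = a.1 + 1 ∨ b.1 = a.1 - 1 then 1 else 0)
  else if b.2 = 1 then (if b.1 = a.1 then 2 else 0)
  else (if b.1 = a.1 + 1 ∨ b.1 = a.1 - 1 then 1 else 0)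

/-- The quotient matrix in the case of six colours and two letters. -/
def Q : Matrix (ZMod 6 × Fin 2) (ZMod 6 × Fin 2) ℝ := Matrix.of fun a b => (Qz a b : ℝ)

theorem Qz_symm : ∀ a b, Qz a b = Qz b a := by
  decide +kernel

theorem Q_isHermitian : Q.IsHermitian := by
  rw [Matrix.IsHermitian, conjTranspose_eq_transpose_of_trivial]
  ext a b
  simp [Q, Qz_symm a b]

theorem Qz_spec : ∀ (u : V 6 2) (b : ZMod 6 × Fin 2),
    Qz (part u) b = ((nb u).filter (fun v => part v = b)).card := by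
  decide +kernel

theorem Q_isQuotient : IsQuotientMatrix 6 2 Q := by
  intro u b
  rw [Q, Matrix.of_apply, Qz_spec]
  congr 2
  ext v
  simp [adj_iff]

theorem adj_mulVec (f : V 6 2 → ℝ) (u : V 6 2) : (adj 6 2 *ᵥ f) u = ∑ v ∈ nb u, f v := by
  classical
  rw [adj, SimpleGraph.adjMatrix_mulVec_apply]
  refine Finset.sum_congr ?_ fun _ _ => rfl
  ext v
  rw [SimpleGraph.mem_neighborFinset, adj_iff]

/-- The doubled cosine on the cyclic group of order six. -/
def dc (d : ZMod 6) : ℤ :=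
  if d = 0 then 2 else if d = 1 ∨ d = 5 then 1 else if d = 2 ∨ d = 4 then -1 else -2

/-- The eigenfunction for the eigenvalue `3`. -/
def ef (u : V 6 2) : ℤ := dc (u.1 (u.2.symm 0) - u.1 (u.2.symm 1))

theorem ef_spec : ∀ u : V 6 2, ∑ v ∈ nb u, ef v = 3 * ef u := by
  decide +kernel

theorem gap_le : gap (adj_isHermitian 6 2) ≤ 1 := by
  have h1 : lam (adj_isHermitian 6 2) 0 ≤ 4 := by
    apply lam_zero_le
    intro μ x hx h
    obtain ⟨i, hi⟩ := Finite.exists_max (fun i => |x i|)
    have hpos : 0 < |x i| := by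
      rw [abs_pos]
      intro h0
      apply hx
      funext j
      have h1 : |x j| ≤ |x i| := hi j
      rw [h0, abs_zero] at h1
      exact abs_nonpos_iff.1 h1
    have h2 := congrFun h i
    rw [adj_mulVec, Pi.smul_apply, smul_eq_mul] at h2
    have h3 : |∑ v ∈ nb i, x v| ≤ 4 * |x i| := by
      calc |∑ v ∈ nb i, x v| ≤ ∑ v ∈ nb i, |x v| := Finset.abs_sum_le_sum_abs _ _
        _ ≤ ∑ v ∈ nb i, |x i| := Finset.sum_le_sum fun v _ => hi v
        _ = 4 * |x i| := by rw [Finset.sum_const, card_nb]; simp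
    rw [h2, abs_mul] at h3
    have h4 : |μ| ≤ 4 := le_of_mul_le_mul_right h3 hpos
    exact (le_abs_self μ).trans h4
  have h2 : 3 ≤ lam (adj_isHermitian 6 2) 1 := by
    refine le_lam_one (adj_isHermitian 6 2) (show (3 : ℝ) < 4 by norm_num)
      (x := fun u => (ef u : ℝ)) (y := fun _ => 1) ?_ ?_ ?_ ?_
    · intro h
      have := congrFun h (0, 1)
      simp [ef, dc] at this
    · funext u
      rw [adj_mulVec, Pi.smul_apply, smul_eq_mul]
      have := ef_spec u
      exact_mod_cast this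
    · intro h
      have := congrFun h (0, 1)
      simp at this
    · funext u
      rw [adj_mulVec, Finset.sum_const, card_nb]
      simp
  unfold gap
  linarith

theorem sum_zmod (f : ZMod 6 → ℝ) : ∑ i, f i = f 0 + f 1 + f 2 + f 3 + f 4 + f 5 :=
  Fin.sum_univ_six f

theorem Qz_row0 : ∀ i : ZMod 6, ∀ a : ZMod 6 × Fin 2, Qz (i, 0) a =
    (if a = (i + 1, 0) then 1 else 0) + (if a = (i - 1, 0) then 1 else 0) +
      (if a = (i + 1, 1) then 1 else 0) + (if a = (i - 1, 1) then 1 else 0) := by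
  decide +kernel

theorem Qz_row1 : ∀ i : ZMod 6, ∀ a : ZMod 6 × Fin 2, Qz (i, 1) a =
    (if a = (i, 1) then 2 else 0) + (if a = (i + 1, 0) then 1 else 0) +
      (if a = (i - 1, 0) then 1 else 0) := by
  decide +kernel

theorem row0 (x : ZMod 6 × Fin 2 → ℝ) (i : ZMod 6) : (Q *ᵥ x) (i, 0) =
    x (i + 1, 0) + x (i - 1, 0) + x (i + 1, 1) + x (i - 1, 1) := by
  rw [mulVec, dotProduct]
  simp only [Q, Matrix.of_apply, Qz_row0]
  push_cast
  simp only [add_mul, ite_mul, one_mul, zero_mul, Finset.sum_add_distrib, Finset.sum_ite_eq',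
    Finset.mem_univ, if_true]

theorem row1 (x : ZMod 6 × Fin 2 → ℝ) (i : ZMod 6) : (Q *ᵥ x) (i, 1) =
    2 * x (i, 1) + x (i + 1, 0) + x (i - 1, 0) := by
  rw [mulVec, dotProduct]
  simp only [Q, Matrix.of_apply, Qz_row1]
  push_cast
  simp only [add_mul, ite_mul, one_mul, zero_mul, Finset.sum_add_distrib, Finset.sum_ite_eq',
    Finset.mem_univ, if_true]

theorem mode {μ s a b : ℝ} (h1 : s * (a + b) = μ * a) (h2 : 2 * b + s * a = μ * b)
    (hκ : 0 < (μ - 2) * (μ - s) - s ^ 2) (hμ : 2 < μ) : a = 0 ∧ b = 0 := by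
  have ha : a = 0 := by
    have : ((μ - 2) * (μ - s) - s ^ 2) * a = 0 := by
      linear_combination -(μ - 2) * h1 - s * h2
    exact (mul_eq_zero.1 this).resolve_left hκ.ne'
  refine ⟨ha, ?_⟩
  have : (μ - 2) * b = 0 := by
    rw [ha] at h2
    linear_combination -h2
  exact (mul_eq_zero.1 this).resolve_left (by linarith)

theorem solve {μ a0 a1 a2 a3 a4 a5 b0 b1 b2 b3 b4 b5 : ℝ} (hμ : 2.9 < μ)
    (e0 : a1 + a5 + b1 + b5 = μ * a0) (e1 : a2 + a0 + b2 + b0 = μ * a1)
    (e2 : a3 + a1 + b3 + b1 = μ * a2) (e3 : a4 + a2 + b4 + b2 = μ * a3)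
    (e4 : a5 + a3 + b5 + b3 = μ * a4) (e5 : a0 + a4 + b0 + b4 = μ * a5)
    (f0 : 2 * b0 + a1 + a5 = μ * b0) (f1 : 2 * b1 + a2 + a0 = μ * b1)
    (f2 : 2 * b2 + a3 + a1 = μ * b2) (f3 : 2 * b3 + a4 + a2 = μ * b3)
    (f4 : 2 * b4 + a5 + a3 = μ * b4) (f5 : 2 * b5 + a0 + a4 = μ * b5) :
    (a1 = a0 ∧ a2 = a0 ∧ a3 = a0 ∧ a4 = a0 ∧ a5 = a0) ∧
      b0 = a0 ∧ b1 = a0 ∧ b2 = a0 ∧ b3 = a0 ∧ b4 = a0 ∧ b5 = a0 := by
  have hμ2 : 2 < μ := by linarith
  have k1 : 0 < (μ - 2) * (μ - 1) - 1 ^ 2 := by nlinarith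
  have k2 : 0 < (μ - 2) * (μ - -1) - (-1) ^ 2 := by nlinarith
  have k3 : 0 < (μ - 2) * (μ - -2) - (-2) ^ 2 := by nlinarith
  obtain ⟨p1, q1⟩ := mode (μ := μ) (s := 1) (a := 2 * a0 + a1 - a2 - 2 * a3 - a4 + a5)
    (b := 2 * b0 + b1 - b2 - 2 * b3 - b4 + b5)
    (by linear_combination 2 * e0 + e1 - e2 - 2 * e3 - e4 + e5)
    (by linear_combination 2 * f0 + f1 - f2 - 2 * f3 - f4 + f5) k1 hμ2
  obtain ⟨p2, q2⟩ := mode (μ := μ) (s := 1) (a := a1 + a2 - a4 - a5) (b := b1 + b2 - b4 - b5)
    (by linear_combination e1 + e2 - e4 - e5)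
    (by linear_combination f1 + f2 - f4 - f5) k1 hμ2
  obtain ⟨p3, q3⟩ := mode (μ := μ) (s := -1) (a := 2 * a0 - a1 - a2 + 2 * a3 - a4 - a5)
    (b := 2 * b0 - b1 - b2 + 2 * b3 - b4 - b5)
    (by linear_combination 2 * e0 - e1 - e2 + 2 * e3 - e4 - e5)
    (by linear_combination 2 * f0 - f1 - f2 + 2 * f3 - f4 - f5) k2 hμ2
  obtain ⟨p4, q4⟩ := mode (μ := μ) (s := -1) (a := a1 - a2 + a4 - a5) (b := b1 - b2 + b4 - b5)
    (by linear_combination e1 - e2 + e4 - e5)
    (by linear_combination f1 - f2 + f4 - f5) k2 hμ2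
  obtain ⟨p5, q5⟩ := mode (μ := μ) (s := -2) (a := a0 - a1 + a2 - a3 + a4 - a5)
    (b := b0 - b1 + b2 - b3 + b4 - b5)
    (by linear_combination e0 - e1 + e2 - e3 + e4 - e5)
    (by linear_combination f0 - f1 + f2 - f3 + f4 - f5) k3 hμ2
  have h1 : a1 = a0 := by linarith
  have h2 : a2 = a0 := by linarith
  have h3 : a3 = a0 := by linarith
  have h4 : a4 = a0 := by linarith
  have h5 : a5 = a0 := by linarith
  have g1 : b1 = b0 := by linarith
  have g2 : b2 = b0 := by linarith
  have g3 : b3 = b0 := by linarith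
  have g4 : b4 = b0 := by linarith
  have g5 : b5 = b0 := by linarith
  have hab : b0 = a0 := by
    have : μ * (b0 - a0) = 0 := by
      rw [h1, h5, g1, g5] at e0
      rw [h1, h5] at f0
      linear_combination e0 - f0
    have := (mul_eq_zero.1 this).resolve_left (by linarith)
    linarith
  exact ⟨⟨h1, h2, h3, h4, h5⟩, hab, g1.trans hab, g2.trans hab, g3.trans hab, g4.trans hab,
    g5.trans hab⟩

theorem eig_const {μ : ℝ} (hμ : 2.9 < μ) {x : ZMod 6 × Fin 2 → ℝ} (h : Q *ᵥ x = μ • x) :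
    ∃ t : ℝ, x = t • fun _ => (1 : ℝ) := by
  have e : ∀ i : ZMod 6, x (i + 1, 0) + x (i - 1, 0) + x (i + 1, 1) + x (i - 1, 1) =
      μ * x (i, 0) := fun i => by rw [← row0, h]; rfl
  have f : ∀ i : ZMod 6, 2 * x (i, 1) + x (i + 1, 0) + x (i - 1, 0) = μ * x (i, 1) :=
    fun i => by rw [← row1, h]; rfl
  have e0 := e 0
  have e1 := e 1
  have e2 := e 2
  have e3 := e 3
  have e4 := e 4
  have e5 := e 5
  have f0 := f 0
  have f1 := f 1
  have f2 := f 2
  have f3 := f 3
  have f4 := f 4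
  have f5 := f 5
  rw [show (0 : ZMod 6) + 1 = 1 by decide, show (0 : ZMod 6) - 1 = 5 by decide] at e0
  rw [show (1 : ZMod 6) + 1 = 2 by decide, show (1 : ZMod 6) - 1 = 0 by decide] at e1
  rw [show (2 : ZMod 6) + 1 = 3 by decide, show (2 : ZMod 6) - 1 = 1 by decide] at e2
  rw [show (3 : ZMod 6) + 1 = 4 by decide, show (3 : ZMod 6) - 1 = 2 by decide] at e3
  rw [show (4 : ZMod 6) + 1 = 5 by decide, show (4 : ZMod 6) - 1 = 3 by decide] at e4
  rw [show (5 : ZMod 6) + 1 = 0 by decide, show (5 : ZMod 6) - 1 = 4 by decide] at e5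
  rw [show (0 : ZMod 6) + 1 = 1 by decide, show (0 : ZMod 6) - 1 = 5 by decide] at f0
  rw [show (1 : ZMod 6) + 1 = 2 by decide, show (1 : ZMod 6) - 1 = 0 by decide] at f1
  rw [show (2 : ZMod 6) + 1 = 3 by decide, show (2 : ZMod 6) - 1 = 1 by decide] at f2
  rw [show (3 : ZMod 6) + 1 = 4 by decide, show (3 : ZMod 6) - 1 = 2 by decide] at f3
  rw [show (4 : ZMod 6) + 1 = 5 by decide, show (4 : ZMod 6) - 1 = 3 by decide] at f4
  rw [show (5 : ZMod 6) + 1 = 0 by decide, show (5 : ZMod 6) - 1 = 4 by decide] at f5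
  obtain ⟨⟨a1, a2, a3, a4, a5⟩, b0, b1, b2, b3, b4, b5⟩ :=
    solve hμ e0 e1 e2 e3 e4 e5 f0 f1 f2 f3 f4 f5
  refine ⟨x (0, 0), funext fun ⟨i, j⟩ => ?_⟩
  rw [Pi.smul_apply, smul_eq_mul, mul_one]
  have hi : ∀ i : ZMod 6, i = 0 ∨ i = 1 ∨ i = 2 ∨ i = 3 ∨ i = 4 ∨ i = 5 := by decide
  have hj : ∀ j : Fin 2, j = 0 ∨ j = 1 := by decide
  rcases hj j with rfl | rfl
  · rcases hi i with rfl | rfl | rfl | rfl | rfl | rfl
    · rfl
    · exact a1
    · exact a2
    · exact a3
    · exact a4
    · exact a5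
  · rcases hi i with rfl | rfl | rfl | rfl | rfl | rfl
    · exact b0
    · exact b1
    · exact b2
    · exact b3
    · exact b4
    · exact b5

theorem gap_Q : 1 < gap Q_isHermitian := by
  have h1 : 4 ≤ lam Q_isHermitian 0 := by
    refine le_lam_zero Q_isHermitian (x := fun _ => 1) ?_ ?_
    · intro h
      have := congrFun h (0, 0)
      simp at this
    · funext ⟨i, j⟩
      fin_cases j
      · exact (row0 _ i).trans (by norm_num)
      · exact (row1 _ i).trans (by norm_num)
  have h2 : lam Q_isHermitian 1 ≤ 2.9 :=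
    lam_one_le Q_isHermitian (by simp [ZMod.card]) (fun _ => 1) fun μ hμ x hx => eig_const hμ hx
  unfold gap
  linarith

/-- **For six colours and two letters the spectral gap of the generalised pancake graph is strictly
smaller than the spectral gap of the quotient matrix.** -/
theorem result : ∃ (m n : ℕ) (_ : 2 ≤ m) (_ : 2 ≤ n) (_ : NeZero m) (_ : NeZero n)
    (Q : Matrix (ZMod m × Fin n) (ZMod m × Fin n) ℝ) (hQ : Q.IsHermitian),
    IsQuotientMatrix m n Q ∧ gap (adj_isHermitian m n) < gap hQ :=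
  ⟨6, 2, by norm_num, le_rfl, inferInstance, inferInstance, Q, Q_isHermitian, Q_isQuotient,
    gap_le.trans_lt gap_Q⟩

end Pool.Agent.Results.MP_ad1e8a_co.SixColours
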